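import Mathlib

set_option autoImplicit false

/-! MP_5df5df_gt: verification of convex bodies in `R^3` by two X-rays, one of whose directions is
prescribed, is impossible: for every direction `u₁` there is one convex body `K` that is not
determined by its X-rays in the directions `u₁, u₂`, whatever the second direction `u₂` is. -/

open MeasureTheory Metric Set
open scoped RealInnerProductSpace ENNReal

namespace Pool.Agent.Results.MP_5df5df_gt.PrescribedFirst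

/-- Euclidean space `R^3` -/
abbrev E3 := EuclideanSpace ℝ (Fin 3)

/-- convex bodies: compact convex sets with nonempty interior -/
def IsConvexBody (K : Set E3) : Prop := Convex ℝ K ∧ IsCompact K ∧ (interior K).Nonempty

/-- the X-ray of `K` in the (unit) direction `u`, a function on the plane orthogonal to `u` -/
noncomputable def xray (u : E3) (K : Set E3) : (Submodule.span ℝ {u})ᗮ → ℝ≥0∞ :=
  fun x => volume {t : ℝ | (x : E3) + t • u ∈ K}

/-! ### the construction -/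

/-- the middle surface -/
noncomputable def h (p q : ℝ) : ℝ := (p ^ 2 + p ^ 3 + q ^ 3) / 8

theorem conc_cube (p p' a c : ℝ) (hac : a + c = 1) :
    a * p ^ 3 + c * p' ^ 3 - (a * p + c * p') ^ 3 =
      a * c * (p - p') ^ 2 * ((1 + a) * p + (1 + c) * p') := by
  obtain rfl : c = 1 - a := by linarith
  ring

theorem conc_sq (p p' a c : ℝ) (hac : a + c = 1) :
    a * p ^ 2 + c * p' ^ 2 - (a * p + c * p') ^ 2 = a * c * (p - p') ^ 2 := by
  obtain rfl : c = 1 - a := by linarith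
  ring

theorem conc (σ p q p' q' a c : ℝ) (hσ : |σ| ≤ 1) (ha : 0 ≤ a) (hc : 0 ≤ c) (hac : a + c = 1)
    (hp : |p| ≤ 1) (hq : |q| ≤ 1) (hp' : |p'| ≤ 1) (hq' : |q'| ≤ 1) :
    a * (1 - p ^ 2 - q ^ 2 + σ * h p q) + c * (1 - p' ^ 2 - q' ^ 2 + σ * h p' q') ≤
      1 - (a * p + c * p') ^ 2 - (a * q + c * q') ^ 2 + σ * h (a * p + c * p') (a * q + c * q') := by
  have e1 := conc_cube p p' a c hac
  have e2 := conc_cube q q' a c hac
  have e3 := conc_sq p p' a c hac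
  have e4 := conc_sq q q' a c hac
  have hb : ∀ y y' : ℝ, |y| ≤ 1 → |y'| ≤ 1 → |(1 + a) * y + (1 + c) * y'| ≤ 3 := by
    intro y y' hy hy'
    refine (abs_add_le _ _).trans ?_
    rw [abs_mul, abs_mul, abs_of_nonneg (by linarith : (0 : ℝ) ≤ 1 + a),
      abs_of_nonneg (by linarith : (0 : ℝ) ≤ 1 + c)]
    nlinarith
  have key : ∀ y : ℝ, |y| ≤ 4 → 0 ≤ 1 - σ * y / 8 := by
    intro y hy
    have h1 : |σ * y| ≤ 1 * 4 := by
      rw [abs_mul]
      exact mul_le_mul hσ hy (abs_nonneg _) (by norm_num)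
    have := (abs_le.1 h1).2
    linarith
  have k1 := key (1 + ((1 + a) * p + (1 + c) * p')) (by
    refine (abs_add_le _ _).trans ?_
    have := hb p p' hp hp'
    rw [abs_one]; linarith)
  have k2 := key ((1 + a) * q + (1 + c) * q') ((hb q q' hq hq').trans (by norm_num))
  have hA : 0 ≤ a * c * (p - p') ^ 2 := by positivity
  have hB : 0 ≤ a * c * (q - q') ^ 2 := by positivity
  have m1 := mul_nonneg hA k1
  have m2 := mul_nonneg hB k2
  have hid : 1 - (a * p + c * p') ^ 2 - (a * q + c * q') ^ 2 +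
      σ * h (a * p + c * p') (a * q + c * q') -
      (a * (1 - p ^ 2 - q ^ 2 + σ * h p q) + c * (1 - p' ^ 2 - q' ^ 2 + σ * h p' q')) =
      a * c * (p - p') ^ 2 * (1 - σ * (1 + ((1 + a) * p + (1 + c) * p')) / 8) +
      a * c * (q - q') ^ 2 * (1 - σ * ((1 + a) * q + (1 + c) * q') / 8) := by
    unfold h
    linear_combination (-(σ / 8)) * e1 + (-(σ / 8)) * e2 + (1 - σ / 8) * e3 + e4 - hac
  linarith

variable (b : OrthonormalBasis (Fin 3) ℝ E3)

/-- the body -/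
def body : Set E3 := {x | |⟪b 2, x⟫ - h ⟪b 0, x⟫ ⟪b 1, x⟫| ≤ 1 - ⟪b 0, x⟫ ^ 2 - ⟪b 1, x⟫ ^ 2}

theorem mem_body (x : E3) : x ∈ body b ↔
    |⟪b 2, x⟫ - h ⟪b 0, x⟫ ⟪b 1, x⟫| ≤ 1 - ⟪b 0, x⟫ ^ 2 - ⟪b 1, x⟫ ^ 2 := Iff.rfl

theorem bb (i j : Fin 3) : ⟪b i, b j⟫ = if i = j then 1 else 0 := by
  simpa using (orthonormal_iff_ite.1 b.orthonormal) i j

theorem norm_sq_coord (x : E3) : ‖x‖ ^ 2 = ⟪b 0, x⟫ ^ 2 + ⟪b 1, x⟫ ^ 2 + ⟪b 2, x⟫ ^ 2 := by
  have := b.sum_sq_norm_inner_right x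
  rw [Fin.sum_univ_three] at this
  rw [← this]
  simp only [Real.norm_eq_abs, sq_abs]

theorem bounds (x : E3) (hx : x ∈ body b) : |⟪b 0, x⟫| ≤ 1 ∧ |⟪b 1, x⟫| ≤ 1 := by
  rw [mem_body] at hx
  have h0 := (abs_nonneg _).trans hx
  constructor <;> rw [abs_le] <;> constructor <;> nlinarith [sq_nonneg ⟪b 0, x⟫, sq_nonneg ⟪b 1, x⟫]

theorem body_isConvexBody : IsConvexBody (body b) := by
  refine ⟨?_, ?_, ?_⟩
  · intro x hx y hy a c ha hc hac
    obtain ⟨hx0, hx1⟩ := bounds b x hx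
    obtain ⟨hy0, hy1⟩ := bounds b y hy
    rw [mem_body] at hx hy ⊢
    simp only [inner_add_right, inner_smul_right]
    have h1 := conc 1 ⟪b 0, x⟫ ⟪b 1, x⟫ ⟪b 0, y⟫ ⟪b 1, y⟫ a c (by norm_num) ha hc hac hx0 hx1 hy0 hy1
    have h2 := conc (-1) ⟪b 0, x⟫ ⟪b 1, x⟫ ⟪b 0, y⟫ ⟪b 1, y⟫ a c (by norm_num) ha hc hac hx0 hx1 hy0 hy1
    rw [abs_le] at hx hy ⊢
    obtain ⟨hx2, hx3⟩ := hx
    obtain ⟨hy2, hy3⟩ := hy
    constructor
    · nlinarith [mul_le_mul_of_nonneg_left hx2 ha, mul_le_mul_of_nonneg_left hy2 hc]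
    · nlinarith [mul_le_mul_of_nonneg_left hx3 ha, mul_le_mul_of_nonneg_left hy3 hc]
  · rw [isCompact_iff_isClosed_bounded]
    constructor
    · apply isClosed_le
      · unfold h; fun_prop
      · fun_prop
    · rw [isBounded_iff_forall_norm_le]
      refine ⟨3, fun x hx => ?_⟩
      obtain ⟨hx0, hx1⟩ := bounds b x hx
      rw [mem_body] at hx
      have e := norm_sq_coord b x
      have hz : |⟪b 2, x⟫| ≤ 2 := by
        have h1 : |h ⟪b 0, x⟫ ⟪b 1, x⟫| ≤ 1 := by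
          unfold h
          have a1 : ∀ y : ℝ, |y| ≤ 1 → |y ^ 2| ≤ 1 ∧ |y ^ 3| ≤ 1 := by
            intro y hy
            rw [abs_pow, abs_pow]
            exact ⟨pow_le_one₀ (abs_nonneg _) hy, pow_le_one₀ (abs_nonneg _) hy⟩
          obtain ⟨p2, p3⟩ := a1 _ hx0
          obtain ⟨_, q3⟩ := a1 _ hx1
          rw [abs_le] at *
          constructor <;> linarith [p2.1, p2.2, p3.1, p3.2, q3.1, q3.2]
        have h2 : |⟪b 2, x⟫ - h ⟪b 0, x⟫ ⟪b 1, x⟫| ≤ 1 := by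
          refine hx.trans ?_
          nlinarith [sq_nonneg ⟪b 0, x⟫, sq_nonneg ⟪b 1, x⟫]
        rw [abs_le] at *
        constructor <;> linarith [h1.1, h1.2, h2.1, h2.2]
      have a0 := sq_le_one_iff_abs_le_one _ |>.2 hx0
      have a1 := sq_le_one_iff_abs_le_one _ |>.2 hx1
      have a2 : ⟪b 2, x⟫ ^ 2 ≤ 4 := by
        have := sq_le_sq.2 (show |⟪b 2, x⟫| ≤ |(2 : ℝ)| by rwa [abs_two])
        linarith
      nlinarith [norm_nonneg x]
  · refine ⟨0, mem_interior.2 ⟨{x | |⟪b 2, x⟫ - h ⟪b 0, x⟫ ⟪b 1, x⟫| <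
      1 - ⟪b 0, x⟫ ^ 2 - ⟪b 1, x⟫ ^ 2}, fun x hx => (mem_body b x).2
        (le_of_lt (show |⟪b 2, x⟫ - h ⟪b 0, x⟫ ⟪b 1, x⟫| < 1 - ⟪b 0, x⟫ ^ 2 - ⟪b 1, x⟫ ^ 2 from hx)),
        ?_, ?_⟩⟩
    · apply isOpen_lt
      · unfold h; fun_prop
      · fun_prop
    · show |⟪b 2, (0 : E3)⟫ - h ⟪b 0, (0 : E3)⟫ ⟪b 1, (0 : E3)⟫| <
        1 - ⟪b 0, (0 : E3)⟫ ^ 2 - ⟪b 1, (0 : E3)⟫ ^ 2
      simp [h]

theorem vol_vert (x : E3) : volume {t : ℝ | x + t • b 2 ∈ body b} =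
    ENNReal.ofReal (2 * (1 - ⟪b 0, x⟫ ^ 2 - ⟪b 1, x⟫ ^ 2)) := by
  have e : {t : ℝ | x + t • b 2 ∈ body b} = Icc
      (h ⟪b 0, x⟫ ⟪b 1, x⟫ - ⟪b 2, x⟫ - (1 - ⟪b 0, x⟫ ^ 2 - ⟪b 1, x⟫ ^ 2))
      (h ⟪b 0, x⟫ ⟪b 1, x⟫ - ⟪b 2, x⟫ + (1 - ⟪b 0, x⟫ ^ 2 - ⟪b 1, x⟫ ^ 2)) := by
    ext t
    show x + t • b 2 ∈ body b ↔ _
    rw [mem_body]
    simp only [inner_add_right, inner_smul_right, bb, mem_Icc, abs_le]
    simp
    constructor
    · rintro ⟨h1, h2⟩; constructor <;> linarith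
    · rintro ⟨h1, h2⟩; constructor <;> linarith
  rw [e, Real.volume_Icc]
  congr 1
  ring

/-- the skew reflection along `w` fixing `b 2` -/
noncomputable def refl (w : E3) : E3 →ₗ[ℝ] E3 where
  toFun x := x - (2 * ((⟪b 0, w⟫ * ⟪b 0, x⟫ + ⟪b 1, w⟫ * ⟪b 1, x⟫) /
    (⟪b 0, w⟫ ^ 2 + ⟪b 1, w⟫ ^ 2))) • w
  map_add' x y := by
    simp only [inner_add_right]; module
  map_smul' r x := by
    simp only [inner_smul_right, RingHom.id_apply]; module

theorem refl_apply (w x : E3) : refl b w x = x - (2 * ((⟪b 0, w⟫ * ⟪b 0, x⟫ + ⟪b 1, w⟫ * ⟪b 1, x⟫) /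
    (⟪b 0, w⟫ ^ 2 + ⟪b 1, w⟫ ^ 2))) • w := rfl

theorem refl_cont (w : E3) : Continuous (refl b w) := (refl b w).continuous_of_finiteDimensional

variable {w : E3} (hw : 0 < ⟪b 0, w⟫ ^ 2 + ⟪b 1, w⟫ ^ 2)

include hw in
theorem refl_w : refl b w w = -w := by
  rw [refl_apply]
  have : (⟪b 0, w⟫ * ⟪b 0, w⟫ + ⟪b 1, w⟫ * ⟪b 1, w⟫) / (⟪b 0, w⟫ ^ 2 + ⟪b 1, w⟫ ^ 2) = 1 := by
    rw [div_eq_one_iff_eq hw.ne']; ring
  rw [this]
  module

theorem refl_vert : refl b w (b 2) = b 2 := by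
  rw [refl_apply]
  simp [bb]

include hw in
theorem refl_refl (x : E3) : refl b w (refl b w x) = x := by
  rw [refl_apply b w x, map_sub, map_smul, refl_w b hw, refl_apply]
  module

include hw in
theorem sq_refl (x : E3) : ⟪b 0, refl b w x⟫ ^ 2 + ⟪b 1, refl b w x⟫ ^ 2 =
    ⟪b 0, x⟫ ^ 2 + ⟪b 1, x⟫ ^ 2 := by
  rw [refl_apply]
  simp only [inner_sub_right, inner_smul_right]
  have := hw.ne'
  field_simp
  ring

include hw in
theorem vol_w (x : E3) (K : Set E3) : volume {t : ℝ | x + t • w ∈ (refl b w) ⁻¹' K} =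
    volume {t : ℝ | x + t • w ∈ K} := by
  set c : ℝ := 2 * ((⟪b 0, w⟫ * ⟪b 0, x⟫ + ⟪b 1, w⟫ * ⟪b 1, x⟫) /
    (⟪b 0, w⟫ ^ 2 + ⟪b 1, w⟫ ^ 2)) with hc
  have e : {t : ℝ | x + t • w ∈ (refl b w) ⁻¹' K} =
      (fun t => (-c) - t) ⁻¹' {t : ℝ | x + t • w ∈ K} := by
    ext t
    show refl b w (x + t • w) ∈ K ↔ x + (-c - t) • w ∈ K
    rw [map_add, map_smul, refl_w b hw, refl_apply, ← hc]
    have : x - c • w + t • -w = x + (-c - t) • w := by module
    rw [this]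
  rw [e]
  exact ((volume : Measure ℝ).measurePreserving_sub_left (-c)).measure_preimage_emb
    (MeasurableEquiv.subLeft (-c)).measurableEmbedding _

include hw in
theorem vol_v (x : E3) : volume {t : ℝ | x + t • b 2 ∈ (refl b w) ⁻¹' (body b)} =
    volume {t : ℝ | x + t • b 2 ∈ body b} := by
  have e : {t : ℝ | x + t • b 2 ∈ (refl b w) ⁻¹' (body b)} =
      {t : ℝ | refl b w x + t • b 2 ∈ body b} := by
    ext t
    show refl b w (x + t • b 2) ∈ body b ↔ refl b w x + t • b 2 ∈ body b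
    rw [map_add, map_smul, refl_vert]
  rw [e, vol_vert, vol_vert]
  have := sq_refl b hw x
  congr 1
  linarith

include hw in
theorem refl_isConvexBody : IsConvexBody ((refl b w) ⁻¹' (body b)) := by
  obtain ⟨h1, h2, h3⟩ := body_isConvexBody b
  have e : (refl b w) ⁻¹' (body b) = (refl b w) '' (body b) := by
    ext x
    constructor
    · intro hx
      exact ⟨refl b w x, hx, refl_refl b hw x⟩
    · rintro ⟨y, hy, rfl⟩
      show refl b w (refl b w y) ∈ body b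
      rwa [refl_refl b hw]
  refine ⟨h1.linear_preimage _, ?_, ?_⟩
  · rw [e]; exact h2.image (refl_cont b w)
  · obtain ⟨y, hy⟩ := h3
    refine ⟨refl b w y, mem_interior.2 ⟨(refl b w) ⁻¹' (interior (body b)),
      preimage_mono interior_subset, isOpen_interior.preimage (refl_cont b w), ?_⟩⟩
    show refl b w (refl b w y) ∈ interior (body b)
    rwa [refl_refl b hw]

theorem vol_neg (x u : E3) (K : Set E3) : volume {t : ℝ | x + t • (-u) ∈ K} =
    volume {t : ℝ | x + t • u ∈ K} := by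
  have e : {t : ℝ | x + t • (-u) ∈ K} = (fun t => 0 - t) ⁻¹' {t : ℝ | x + t • u ∈ K} := by
    ext t
    show x + t • (-u) ∈ K ↔ x + (0 - t) • u ∈ K
    have : x + t • (-u) = x + (0 - t) • u := by module
    rw [this]
  rw [e]
  exact ((volume : Measure ℝ).measurePreserving_sub_left 0).measure_preimage_emb
    (MeasurableEquiv.subLeft 0).measurableEmbedding _

/-- the point with given coordinates -/
noncomputable def pt (p q z : ℝ) : E3 := p • b 0 + q • b 1 + z • b 2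

theorem pt_coord (p q z : ℝ) : ⟪b 0, pt b p q z⟫ = p ∧ ⟪b 1, pt b p q z⟫ = q ∧
    ⟪b 2, pt b p q z⟫ = z := by
  unfold pt
  refine ⟨?_, ?_, ?_⟩ <;> simp [inner_add_right, inner_smul_right, bb]

/-- if the reflected body is the body itself then the middle surface satisfies an equation -/
theorem surface_eq (heq : (refl b w) ⁻¹' (body b) = body b) (p q : ℝ) (hpq : p ^ 2 + q ^ 2 ≤ 1)
    (c : ℝ) (hc : c = 2 * ((⟪b 0, w⟫ * p + ⟪b 1, w⟫ * q) / (⟪b 0, w⟫ ^ 2 + ⟪b 1, w⟫ ^ 2)))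
    (hw : 0 < ⟪b 0, w⟫ ^ 2 + ⟪b 1, w⟫ ^ 2) :
    h p q = h (p - c * ⟪b 0, w⟫) (q - c * ⟪b 1, w⟫) + c * ⟪b 2, w⟫ := by
  have key : ∀ z : ℝ, |z - h p q| ≤ 1 - p ^ 2 - q ^ 2 →
      |z - c * ⟪b 2, w⟫ - h (p - c * ⟪b 0, w⟫) (q - c * ⟪b 1, w⟫)| ≤ 1 - p ^ 2 - q ^ 2 := by
    intro z hz
    obtain ⟨e0, e1, e2⟩ := pt_coord b p q z
    have hm : pt b p q z ∈ body b := by
      rw [mem_body, e0, e1, e2]; exact hz
    rw [← heq] at hm
    have hm2 : refl b w (pt b p q z) ∈ body b := hm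
    have hs := sq_refl b hw (pt b p q z)
    rw [e0, e1] at hs
    rw [mem_body, sub_sub, hs, refl_apply, e0, e1, ← hc] at hm2
    simp only [inner_sub_right, inner_smul_right, e0, e1, e2] at hm2
    rw [sub_sub 1 (p ^ 2)]
    exact hm2
  have h1 := key (h p q + (1 - p ^ 2 - q ^ 2)) (by
    rw [add_sub_cancel_left, abs_of_nonneg (by linarith)])
  have h2 := key (h p q - (1 - p ^ 2 - q ^ 2)) (by
    rw [sub_sub_cancel_left, abs_neg, abs_of_nonneg (by linarith)])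
  have h3 := (abs_le.1 h1).2
  have h4 := (abs_le.1 h2).1
  linarith

theorem refl_ne (hw1 : ‖w‖ = 1) (hw : 0 < ⟪b 0, w⟫ ^ 2 + ⟪b 1, w⟫ ^ 2) :
    (refl b w) ⁻¹' (body b) ≠ body b := by
  intro heq
  have hn := norm_sq_coord b w
  rw [hw1] at hn
  obtain ⟨α, hα⟩ : ∃ α, α = ⟪b 0, w⟫ := ⟨_, rfl⟩
  obtain ⟨β, hβ⟩ : ∃ β, β = ⟪b 1, w⟫ := ⟨_, rfl⟩
  obtain ⟨s, hs⟩ : ∃ s, s = ⟪b 2, w⟫ := ⟨_, rfl⟩
  have hS := fun p q hpq c hc => surface_eq b heq p q hpq c hc hw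
  rw [← hα, ← hβ, ← hs] at hS
  rw [← hα, ← hβ, ← hs] at hn
  rw [← hα, ← hβ] at hw
  have hS1 := hS α β (by nlinarith [sq_nonneg s]) 2 (by
    rw [show α * α + β * β = α ^ 2 + β ^ 2 by ring, div_self hw.ne']; norm_num)
  have hS2 := hS (α / 2) (β / 2) (by nlinarith [sq_nonneg s]) 1 (by
    rw [show α * (α / 2) + β * (β / 2) = (α ^ 2 + β ^ 2) / 2 by ring]
    field_simp)
  unfold h at hS1 hS2
  have e1 : α ^ 3 + β ^ 3 = 8 * s := by nlinarith
  have e2 : α ^ 3 + β ^ 3 = 32 * s := by nlinarith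
  have hs0 : s = 0 := by linarith
  have hab : α ^ 3 + β ^ 3 = 0 := by rw [e1, hs0]; ring
  have hβα : β = -α := by
    have : (α + β) * (α ^ 2 - α * β + β ^ 2) = 0 := by linear_combination hab
    rcases mul_eq_zero.1 this with h0 | h0
    · linarith
    · exfalso
      nlinarith [sq_nonneg (α - β), sq_nonneg (α + β)]
  have hα0 : α ≠ 0 := by
    rintro rfl
    rw [hβα] at hw
    simp at hw
  have hS3 := hS (1 / 2) 0 (by norm_num) (1 / (2 * α)) (by
    rw [hβα]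
    field_simp
    ring)
  rw [hs0, hβα] at hS3
  have e3 : (1 / 2 : ℝ) - 1 / (2 * α) * α = 0 := by field_simp; ring
  have e4 : (0 : ℝ) - 1 / (2 * α) * -α = 1 / 2 := by field_simp; ring
  rw [e3, e4] at hS3
  unfold h at hS3
  norm_num at hS3

/-- **Two X-rays, one of them in a prescribed direction, do not verify all convex bodies in `R^3`.**
For every direction `u₁` there is a convex body `K` such that for every direction `u₂` some convex
body `K' ≠ K` has the same X-rays as `K` in the directions `u₁` and `u₂`. -/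
theorem result (u₁ : E3) (hu₁ : ‖u₁‖ = 1) : ∃ K : Set E3, IsConvexBody K ∧ ∀ u₂ : E3, ‖u₂‖ = 1 →
    ∃ K' : Set E3, IsConvexBody K' ∧ K' ≠ K ∧ xray u₁ K' = xray u₁ K ∧ xray u₂ K' = xray u₂ K := by
    obtain ⟨b, hb⟩ := Orthonormal.exists_orthonormalBasis_extension_of_card_eq (𝕜 := ℝ) (E := E3)
      (ι := Fin 3) (by simp) (v := fun _ => u₁) (s := {2}) (by
        rw [orthonormal_iff_ite]
        rintro ⟨i, hi⟩ ⟨j, hj⟩
        simp only [mem_singleton_iff] at hi hj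
        subst hi; subst hj
        simp [hu₁])
    have hb2 : b 2 = u₁ := hb 2 rfl
    subst hb2
    refine ⟨body b, body_isConvexBody b, fun u₂ hu₂ => ?_⟩
    by_cases hw : 0 < ⟪b 0, u₂⟫ ^ 2 + ⟪b 1, u₂⟫ ^ 2
    · refine ⟨(refl b u₂) ⁻¹' (body b), refl_isConvexBody b hw, refl_ne b hu₂ hw, ?_, ?_⟩
      · funext x
        exact vol_v b hw x
      · funext x
        exact vol_w b hw x _
    · have hw0 : 0 < ⟪b 0, b 0⟫ ^ 2 + ⟪b 1, b 0⟫ ^ 2 := by simp [bb]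
      refine ⟨(refl b (b 0)) ⁻¹' (body b), refl_isConvexBody b hw0, refl_ne b (b.norm_eq_one 0) hw0,
        ?_, ?_⟩
      · funext x
        exact vol_v b hw0 x
      · have h0 : ⟪b 0, u₂⟫ = 0 := by nlinarith [sq_nonneg ⟪b 0, u₂⟫, sq_nonneg ⟪b 1, u₂⟫]
        have h1 : ⟪b 1, u₂⟫ = 0 := by nlinarith [sq_nonneg ⟪b 0, u₂⟫, sq_nonneg ⟪b 1, u₂⟫]
        have hn := norm_sq_coord b u₂
        rw [hu₂, h0, h1] at hn
        have hu : u₂ = ⟪b 2, u₂⟫ • b 2 := by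
          have := b.sum_repr' u₂
          rw [Fin.sum_univ_three, h0, h1] at this
          rw [zero_smul, zero_smul, zero_add, zero_add] at this
          exact this.symm
        have hσ : ⟪b 2, u₂⟫ = 1 ∨ ⟪b 2, u₂⟫ = -1 := by
          have h2 : (⟪b 2, u₂⟫ - 1) * (⟪b 2, u₂⟫ + 1) = 0 := by linear_combination -hn
          rcases mul_eq_zero.1 h2 with h3 | h3
          · left; linarith
          · right; linarith
        funext x
        rcases hσ with hσ | hσ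
        · rw [hσ, one_smul] at hu
          subst hu
          exact vol_v b hw0 x
        · rw [hσ, neg_one_smul] at hu
          have gen : ∀ y : E3, volume {t : ℝ | y + t • u₂ ∈ (refl b (b 0)) ⁻¹' (body b)} =
              volume {t : ℝ | y + t • u₂ ∈ body b} := by
            intro y
            rw [hu, vol_neg, vol_neg]
            exact vol_v b hw0 y
          exact gen x

end Pool.Agent.Results.MP_5df5df_gt.PrescribedFirst
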